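import Pool.Agent.P8H47.EC.Stm

/-!
# Packages LX and LB of project EC: alternating forms
-/

set_option autoImplicit false

open Module Submodule

namespace Pool.Agent.P8H48.EC

open Pool.Agent.N908.FR (Forms)

variable {k V : Type*} [Field k] [AddCommGroup V] [Module k V] {E : V → V → Prop}

theorem skew {β : V →ₗ[k] V →ₗ[k] k} (h : ∀ x, β x x = 0) (x y : V) : β y x = - β x y := by
  have h1 := h (x + y)
  simp only [map_add, LinearMap.add_apply, h x, h y, zero_add, add_zero] at h1
  exact eq_neg_of_add_eq_zero_left h1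

/-- the forms which vanish on `T` -/
def SS (E : V → V → Prop) (T : Submodule k V) : Submodule k (V →ₗ[k] V →ₗ[k] k) where
  carrier := {β | β ∈ Forms k E ∧ ∀ t ∈ T, ∀ x, β t x = 0}
  add_mem' := by
    rintro a b ⟨ha, ha'⟩ ⟨hb, hb'⟩
    exact ⟨add_mem ha hb, fun t ht x => by simp [ha' t ht x, hb' t ht x]⟩
  zero_mem' := ⟨zero_mem _, fun t _ x => by simp⟩
  smul_mem' := by
    rintro c a ⟨ha, ha'⟩
    exact ⟨smul_mem _ c ha, fun t ht x => by simp [ha' t ht x]⟩

theorem mem_SS {T : Submodule k V} {β : V →ₗ[k] V →ₗ[k] k} :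
    β ∈ SS E T ↔ β ∈ Forms k E ∧ ∀ t ∈ T, ∀ x, β t x = 0 := Iff.rfl

/-- the elements orthogonal to `a` -/
def NN (E : V → V → Prop) (T : Submodule k V) (a : V) : Submodule k V where
  carrier := {b | ∀ β ∈ SS E T, β a b = 0}
  add_mem' := fun {x y} hx hy β hβ => by rw [map_add, hx β hβ, hy β hβ, add_zero]
  zero_mem' := fun _ _ => map_zero _
  smul_mem' := fun c x hx β hβ => by rw [map_smul, hx β hβ, smul_zero]

theorem mem_NN {T : Submodule k V} {a b : V} : b ∈ NN E T a ↔ ∀ β ∈ SS E T, β a b = 0 := Iff.rfl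

theorem le_NN (T : Submodule k V) (a : V) : T ≤ NN E T a := fun t ht β hβ => by
  rw [skew hβ.1.1 t a, hβ.2 t ht a, neg_zero]

theorem self_NN (T : Submodule k V) (a : V) : a ∈ NN E T a := fun β hβ => hβ.1.1 a

variable [FiniteDimensional k V]

theorem rank_bound (T : Submodule k V) (a : V) :
    finrank k (SS E T) ≤ finrank k (SS E (T ⊔ span k {a})) + (finrank k V - finrank k (NN E T a)) := by
  let φ : SS E T →ₗ[k] (V →ₗ[k] k) :=
    { toFun := fun β => β.1 a
      map_add' := fun β γ => rfl
      map_smul' := fun c β => rfl }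
  have h1 : finrank k (LinearMap.range φ) + finrank k (LinearMap.ker φ) = finrank k (SS E T) := by
    let _ : AddCommGroup (SS E T) := Module.addCommMonoidToAddCommGroup k
    exact LinearMap.finrank_range_add_finrank_ker (K := k) (V := ↥(SS E T)) (V₂ := V →ₗ[k] k) φ
  have h2 : finrank k (LinearMap.ker φ) ≤ finrank k (SS E (T ⊔ span k {a})) := by
    let ψ : LinearMap.ker φ →ₗ[k] SS E (T ⊔ span k {a}) :=
      { toFun := fun β => ⟨β.1.1, by
          refine mem_SS.2 ⟨β.1.2.1, fun t ht x => ?_⟩
          obtain ⟨u, hu, v, hv, rfl⟩ := Submodule.mem_sup.1 ht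
          obtain ⟨c, rfl⟩ := Submodule.mem_span_singleton.1 hv
          have h3 : β.1.1 a = 0 := β.2
          rw [map_add, map_smul, LinearMap.add_apply, LinearMap.smul_apply, h3, β.1.2.2 u hu x]
          simp⟩
        map_add' := fun β γ => rfl
        map_smul' := fun c β => rfl }
    refine LinearMap.finrank_le_finrank_of_injective (f := ψ) fun β γ h => ?_
    have h' := congrArg Subtype.val h
    exact Subtype.ext (Subtype.ext h')
  have h3 : finrank k (LinearMap.range φ) ≤ finrank k V - finrank k (NN E T a) := by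
    have h4 : LinearMap.range φ ≤ (NN E T a).dualAnnihilator := by
      rintro _ ⟨β, rfl⟩
      rw [Submodule.mem_dualAnnihilator]
      intro b hb
      exact hb β.1 β.2
    have h5 : finrank k (LinearMap.range φ) ≤ finrank k (NN E T a).dualAnnihilator :=
      Submodule.finrank_mono h4
    have h6 : finrank k (NN E T a) + finrank k (NN E T a).dualAnnihilator = finrank k V :=
      Subspace.finrank_add_finrank_dualAnnihilator_eq (NN E T a)
    exact h5.trans (by omega)
  omega

theorem finrank_sup {T : Submodule k V} {a : V} (ha : a ∉ T) :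
    finrank k ↥(T ⊔ span k {a}) = finrank k T + 1 := by
  have h1 := Submodule.finrank_sup_add_finrank_inf_eq T (span k {a})
  have h2 : T ⊓ span k {a} = ⊥ := by
    rw [eq_bot_iff]
    rintro x ⟨hx, hx2⟩
    obtain ⟨c, rfl⟩ := Submodule.mem_span_singleton.1 hx2
    rcases eq_or_ne c 0 with rfl | hc
    · simp
    · exact absurd ((Submodule.smul_mem_iff T hc).1 hx) ha
  have h3 : a ≠ 0 := fun h => ha (h ▸ T.zero_mem)
  rw [h2, finrank_bot, finrank_span_singleton h3] at h1
  omega

theorem exists_not_mem {T : Submodule k V} (h : finrank k T < finrank k V) : ∃ a, a ∉ T := by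
  by_contra hcon
  push Not at hcon
  have : T = ⊤ := eq_top_iff.2 fun x _ => hcon x
  rw [this, finrank_top] at h
  exact lt_irrefl _ h

theorem tri (m : ℕ) : (m + 1) * m / 2 = m * (m - 1) / 2 + m := by
  have h : (m + 1) * m = m * (m - 1) + 2 * m := by
    rcases Nat.eq_zero_or_pos m with rfl | h
    · rfl
    · obtain ⟨c, rfl⟩ := Nat.exists_eq_add_of_lt h
      simp only [zero_add, Nat.add_sub_cancel]
      ring
  rw [h, Nat.add_mul_div_left _ _ (by norm_num)]

/-- the alternating forms which vanish on `T` -/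
theorem bound (m : ℕ) : ∀ T : Submodule k V, finrank k T + m = finrank k V →
    finrank k (SS E T) ≤ m * (m - 1) / 2 := by
  induction m with
  | zero =>
    intro T hT
    have h1 : T = ⊤ := Submodule.eq_top_of_finrank_eq (by omega)
    have h2 : SS E T = ⊥ := by
      rw [eq_bot_iff]
      intro β hβ
      rw [Submodule.mem_bot]
      ext x y
      exact hβ.2 x (h1 ▸ Submodule.mem_top) y
    rw [h2]
    simp
  | succ m ih =>
    intro T hT
    obtain ⟨a, ha⟩ := exists_not_mem (T := T) (by omega)
    have h1 := finrank_sup ha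
    have h2 := ih (T ⊔ span k {a}) (by omega)
    have h3 := rank_bound (E := E) T a
    have h4 : T ⊔ span k {a} ≤ NN E T a := sup_le (le_NN T a) ((Submodule.span_singleton_le_iff_mem _ _).2 (self_NN T a))
    have h5 := Submodule.finrank_mono h4
    have h6 := tri m
    simp only [Nat.add_sub_cancel]
    omega

theorem bound2 (hN : ∀ T : Submodule k V, finrank k T + 3 ≤ finrank k V → ∃ a, a ∉ T ∧
    finrank k T + 3 ≤ finrank k (NN E T a)) (m : ℕ) : ∀ T : Submodule k V,
    finrank k T + (m + 2) = finrank k V → finrank k (SS E T) ≤ m * (m - 1) / 2 + 1 := by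
  induction m with
  | zero =>
    intro T hT
    have := bound (E := E) 2 T hT
    simpa using this
  | succ m ih =>
    intro T hT
    obtain ⟨a, ha, hN2⟩ := hN T (by omega)
    have h1 := finrank_sup ha
    have h2 := ih (T ⊔ span k {a}) (by omega)
    have h3 := rank_bound (E := E) T a
    have h6 := tri m
    simp only [Nat.add_sub_cancel]
    omega

theorem NN_smul {T : Submodule k V} {a x : V} (hx : x ∈ T ⊔ span k {a}) (hxT : x ∉ T) :
    NN E T x = NN E T a := by
  obtain ⟨u, hu, v, hv, rfl⟩ := Submodule.mem_sup.1 hx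
  obtain ⟨c, rfl⟩ := Submodule.mem_span_singleton.1 hv
  have hc : c ≠ 0 := by
    rintro rfl
    apply hxT
    simpa using hu
  ext b
  rw [mem_NN, mem_NN]
  have key : ∀ β ∈ SS E T, β (u + c • a) b = c * β a b := fun β hβ => by
    rw [map_add, map_smul, LinearMap.add_apply, LinearMap.smul_apply, hβ.2 u hu b, zero_add, smul_eq_mul]
  constructor
  · intro h β hβ
    have h1 := h β hβ
    rw [key β hβ] at h1
    exact (mul_eq_zero.1 h1).resolve_left hc
  · intro h β hβ
    rw [key β hβ, h β hβ, mul_zero]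

theorem NN_eq {T : Submodule k V} (hT : ∀ a, a ∉ T → finrank k (NN E T a) ≤ finrank k T + 2)
    {a x : V} (ha : a ∉ T) (hx : x ∉ T) (hxa : x ∈ NN E T a) : NN E T x = NN E T a := by
  by_cases h : x ∈ T ⊔ span k {a}
  · exact NN_smul h hx
  · have h1 := finrank_sup ha
    have h2 := finrank_sup h
    have h3 : T ⊔ span k {a} ⊔ span k {x} ≤ NN E T a :=
      sup_le (sup_le (le_NN T a) ((Submodule.span_singleton_le_iff_mem _ _).2 (self_NN T a)))
        ((Submodule.span_singleton_le_iff_mem _ _).2 hxa)
    have h4 : T ⊔ span k {a} ⊔ span k {x} = NN E T a :=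
      Submodule.eq_of_le_of_finrank_le h3 (by have := hT a ha; omega)
    have h5 : NN E T a ≤ NN E T x := by
      rw [← h4]
      refine sup_le (sup_le (le_NN T x) ((Submodule.span_singleton_le_iff_mem _ _).2 ?_))
        ((Submodule.span_singleton_le_iff_mem _ _).2 (self_NN T x))
      intro β hβ
      rw [skew hβ.1.1 a x, hxa β hβ, neg_zero]
    refine (Submodule.eq_of_le_of_finrank_le h5 ?_).symm
    have h6 := hT x hx
    have h7 : finrank k (NN E T a) = finrank k T + 2 := by rw [← h4]; omega
    omega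

theorem lx0 (h : (finrank k V - 2) * (finrank k V - 3) / 2 + 1 < finrank k (Forms k E)) :
    ∃ T : Submodule k V, finrank k T + 3 ≤ finrank k V ∧
      ∃ P : Set (Submodule k V), (∀ K ∈ P, T ≤ K) ∧ (∀ K ∈ P, K ≠ ⊤) ∧ (∀ x, ∃ K ∈ P, x ∈ K) ∧
        (∀ K ∈ P, ∀ K' ∈ P, K ≠ K' → K ⊓ K' = T) ∧
        ∀ K ∈ P, ∀ x y : V, E x y → x ∉ T → x ∈ K → y ∈ K := by
  have hF : SS E (⊥ : Submodule k V) = Forms k E := by
    ext β
    rw [mem_SS]
    constructor
    · exact fun h => h.1
    · refine fun h => ⟨h, fun t ht x => ?_⟩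
      rw [Submodule.mem_bot] at ht
      rw [ht, map_zero, LinearMap.zero_apply]
  by_cases hc : ∀ T : Submodule k V, finrank k T + 3 ≤ finrank k V → ∃ a, a ∉ T ∧
    finrank k T + 3 ≤ finrank k (NN E T a)
  · exfalso
    rcases Nat.lt_or_ge (finrank k V) 2 with hn | hn
    · have h1 := bound (E := E) (finrank k V) (⊥ : Submodule k V) (by rw [finrank_bot]; omega)
      rw [hF] at h1
      have h2 : finrank k V * (finrank k V - 1) / 2 = 0 := by
        have h3 : finrank k V = 0 ∨ finrank k V = 1 := by omega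
        rcases h3 with h3 | h3 <;> rw [h3]
      omega
    · obtain ⟨m, hm⟩ := Nat.exists_eq_add_of_le hn
      have h1 := bound2 hc m (⊥ : Submodule k V) (by rw [finrank_bot]; omega)
      rw [hF] at h1
      rw [hm] at h
      have e1 : 2 + m - 2 = m := by omega
      have e2 : 2 + m - 3 = m - 1 := by omega
      rw [e1, e2] at h
      omega
  · push Not at hc
    obtain ⟨T, hT, hT2⟩ := hc
    have hT3 : ∀ a, a ∉ T → finrank k (NN E T a) ≤ finrank k T + 2 := fun a ha => by
      have := hT2 a ha
      omega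
    refine ⟨T, hT, {K | ∃ a, a ∉ T ∧ K = NN E T a}, ?_, ?_, ?_, ?_, ?_⟩
    · rintro _ ⟨a, -, rfl⟩
      exact le_NN T a
    · rintro _ ⟨a, ha, rfl⟩ htop
      have h1 := hT3 a ha
      rw [htop, finrank_top] at h1
      omega
    · intro x
      by_cases hx : x ∈ T
      · obtain ⟨a, ha⟩ := exists_not_mem (T := T) (by omega)
        exact ⟨_, ⟨a, ha, rfl⟩, le_NN T a hx⟩
      · exact ⟨_, ⟨x, hx, rfl⟩, self_NN T x⟩
    · rintro _ ⟨a, ha, rfl⟩ _ ⟨b, hb, rfl⟩ hne
      refine le_antisymm ?_ (le_inf (le_NN T a) (le_NN T b))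
      rintro x ⟨hxa, hxb⟩
      by_contra hx
      apply hne
      rw [← NN_eq hT3 ha hx hxa, ← NN_eq hT3 hb hx hxb]
    · rintro _ ⟨a, ha, rfl⟩ x y hE hx hxa
      rw [← NN_eq hT3 ha hx hxa]
      intro β hβ
      exact hβ.1.2 x y hE

theorem lb0 (T : Submodule k V) (h : ∀ t ∈ T, ∀ x : V, ∃ t' ∈ T, E (x + t') t) :
    finrank k (Forms k E) ≤ finrank k T * (finrank k T - 1) / 2 +
      (finrank k V - finrank k T) * (finrank k V - finrank k T - 1) / 2 := by
  let φ : Forms k E →ₗ[k] Forms k (V := T) (fun _ _ => False) :=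
    { toFun := fun β => ⟨β.1.compl₁₂ T.subtype T.subtype, fun x => β.2.1 x, fun x y h => h.elim⟩
      map_add' := fun β γ => rfl
      map_smul' := fun c β => rfl }
  have h1 : finrank k (LinearMap.range φ) + finrank k (LinearMap.ker φ) = finrank k (Forms k E) := by
    let _ : AddCommGroup (Forms k E) := Module.addCommMonoidToAddCommGroup k
    let _ : AddCommGroup (Forms k (V := T) (fun _ _ => False)) := Module.addCommMonoidToAddCommGroup k
    exact LinearMap.finrank_range_add_finrank_ker (K := k) (V := ↥(Forms k E))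
      (V₂ := ↥(Forms k (V := T) (fun _ _ => False))) φ
  have h2 : finrank k (LinearMap.ker φ) ≤ finrank k (SS E T) := by
    let ψ : LinearMap.ker φ →ₗ[k] SS E T :=
      { toFun := fun β => ⟨β.1.1, by
          refine mem_SS.2 ⟨β.1.2, fun t ht x => ?_⟩
          obtain ⟨t', ht', hE⟩ := h t ht x
          have h3 := β.1.2.2 _ _ hE
          have h4 : β.1.1 t' t = 0 := by
            have h5 : φ β.1 = 0 := β.2
            have h6 := congrArg Subtype.val h5
            have h7 := LinearMap.congr_fun (LinearMap.congr_fun h6 ⟨t', ht'⟩) ⟨t, ht⟩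
            exact h7
          rw [map_add, LinearMap.add_apply, h4, add_zero] at h3
          rw [skew β.1.2.1 x t, h3, neg_zero]⟩
        map_add' := fun β γ => rfl
        map_smul' := fun c β => rfl }
    refine LinearMap.finrank_le_finrank_of_injective (f := ψ) fun β γ h => ?_
    have h' := congrArg Subtype.val h
    exact Subtype.ext (Subtype.ext h')
  have hTV := Submodule.finrank_le T
  have h3 := bound (E := E) (finrank k V - finrank k T) T (by omega)
  have h4 : finrank k (LinearMap.range φ) ≤ finrank k T * (finrank k T - 1) / 2 := by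
    have h5 := Submodule.finrank_le (LinearMap.range φ)
    have h6 := bound (E := fun _ _ : T => False) (finrank k T) (⊥ : Submodule k T) (by rw [finrank_bot]; omega)
    have hF : SS (fun _ _ : T => False) (⊥ : Submodule k T) = Forms k (V := T) (fun _ _ => False) := by
      ext β
      rw [mem_SS]
      constructor
      · exact fun h => h.1
      · refine fun h => ⟨h, fun t ht x => ?_⟩
        rw [Submodule.mem_bot] at ht
        rw [ht, map_zero, LinearMap.zero_apply]
    rw [hF] at h6
    exact h5.trans h6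
  omega

theorem lx : Pool.Agent.P8H47.EC.S_LX := fun p _ V _ _ _ E h => lx0 h

theorem lb : Pool.Agent.P8H47.EC.S_LB := fun p _ V _ _ _ E T h => lb0 T h

end Pool.Agent.P8H48.EC
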